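import Pool.Agent.H95.Rc1

set_option autoImplicit false

open Pool.Agent.H95.RcDefs

theorem Pool.Agent.Results.MP_3a8f7c_lc.NotMinimal.result :
    ∃ L : Language (Fin 3), (∀ w ∈ L, ∃ i j k,
      w = List.replicate i 0 ++ List.replicate j 1 ++ List.replicate k 2) ∧
      L ∈ T sNe 3 ∧ ¬ L.IsRegular ∧ T L ≠ T sNe :=
  Pool.Agent.H95.Rc1.main
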